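import Pool.Agent.W268.Dy.StmB

/-!
# Part DB-O: the ordinary differential inequality `f' ≥ c f^(3/2) - C`
(helper349)
-/

set_option autoImplicit false

namespace Pool.Agent.W349.DyB.O

open Pool.Agent.W268.Dy Set

theorem main : S_bO := by
  intro c1 C2 C3 T hc1 hC2 hC3 hT
  set s1 : ℝ := 2 * C2 / c1 + 1 + 8 * C3 / (c1 * T) with hs1
  have p1 : 0 < 2 * C2 / c1 := by positivity
  have p2 : 0 < 8 * C3 / (c1 * T) := by positivity
  have hs1a : 1 ≤ s1 := by rw [hs1]; linarith
  have hs1b : 2 * C2 ≤ c1 * s1 := by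
    have h1 : c1 * (2 * C2 / c1) = 2 * C2 := by field_simp
    have h2 : c1 * (2 * C2 / c1) ≤ c1 * s1 := mul_le_mul_of_nonneg_left (by rw [hs1]; linarith) hc1.le
    linarith
  have hs1c : 8 * C3 / (c1 * T) < s1 := by rw [hs1]; linarith
  set R1 : ℝ := 2 * C3 * s1 ^ 2 with hR1
  have hR1p : 0 < R1 := by positivity
  refine ⟨R1 + 1, by linarith, ?_⟩
  intro f hf h0 hode
  -- the differential inequality
  have key : ∀ t, 0 < t → t < T → R1 < f t → ∃ d, HasDerivAt f d t ∧
      c1 * Real.sqrt (f t / (2 * C3)) ^ 3 / 2 ≤ d := by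
    intro t ht0 htT hft
    obtain ⟨d, G, hd, hdG, hG⟩ := hode t ht0 htT
    refine ⟨d, hd, ?_⟩
    set s : ℝ := Real.sqrt (f t / (2 * C3)) with hs
    have hfp : 0 < f t := by linarith
    have hss : s ^ 2 = f t / (2 * C3) := Real.sq_sqrt (by positivity)
    have hsf : f t = 2 * C3 * s ^ 2 := by
      rw [hss]
      field_simp
    have hs1s : s1 ≤ s := by
      apply Real.le_sqrt_of_sq_le
      rw [le_div_iff₀ (by positivity)]
      rw [hR1] at hft
      linarith
    have hsp : 0 < s := by linarith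
    have h1 := hG (1 / s) (by positivity)
    have h2 : C3 * (1 / s * G + 1 / (1 / s) ^ 2) = C3 * (G / s) + C3 * s ^ 2 := by
      field_simp
    rw [h2, hsf] at h1
    have h3 : s ^ 2 ≤ G / s := by
      have : C3 * s ^ 2 ≤ C3 * (G / s) := by linarith
      exact le_of_mul_le_mul_left this hC3
    have h4 : s ^ 3 ≤ G := by
      rw [le_div_iff₀ hsp] at h3
      nlinarith
    have h5 : s1 ≤ s ^ 3 := by
      have h6 : s ≤ s ^ 3 := by
        have h7 : 1 ≤ s := by linarith
        have h8 : 1 ≤ s ^ 2 := one_le_pow₀ h7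
        have h9 : s * 1 ≤ s * s ^ 2 := mul_le_mul_of_nonneg_left h8 hsp.le
        linarith [h9, (by ring : s * s ^ 2 = s ^ 3)]
      linarith
    have h6 : c1 * s1 ≤ c1 * s ^ 3 := mul_le_mul_of_nonneg_left h5 hc1.le
    have h7 : c1 * s ^ 3 ≤ c1 * G := mul_le_mul_of_nonneg_left h4 hc1.le
    linarith
  -- `f` stays above `R1`
  have hab : ∀ t ∈ Icc 0 T, R1 < f t := by
    by_contra hcon
    push Not at hcon
    obtain ⟨t2, ht2, hft2⟩ := hcon
    set S : Set ℝ := Icc 0 T ∩ f ⁻¹' Iic R1 with hS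
    have hSc : IsCompact S := by
      have : IsClosed S := hf.preimage_isClosed_of_isClosed isClosed_Icc isClosed_Iic
      exact isCompact_Icc.of_isClosed_subset this inter_subset_left
    obtain ⟨t1, ht1, hmin⟩ := hSc.exists_isLeast ⟨t2, ht2, hft2⟩
    have ht1p : 0 < t1 := by
      rcases eq_or_lt_of_le ht1.1.1 with h | h
      · exfalso
        have h1 : f t1 ≤ R1 := ht1.2
        rw [← h] at h1
        linarith
      · exact h
    have hbef : ∀ t, 0 ≤ t → t < t1 → R1 < f t := by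
      intro t h1 h2
      by_contra h3
      push Not at h3
      have := hmin (⟨⟨h1, h2.le.trans ht1.1.2⟩, h3⟩ : t ∈ S)
      linarith
    have hmono : MonotoneOn f (Icc 0 t1) := by
      refine monotoneOn_of_deriv_nonneg (convex_Icc 0 t1)
        (hf.mono (Icc_subset_Icc le_rfl ht1.1.2)) ?_ ?_
      · rw [interior_Icc]
        intro t ht
        obtain ⟨d, hd, _⟩ := key t ht.1 (ht.2.trans_le ht1.1.2) (hbef t ht.1.le ht.2)
        exact hd.differentiableAt.differentiableWithinAt
      · rw [interior_Icc]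
        intro t ht
        obtain ⟨d, hd, hd'⟩ := key t ht.1 (ht.2.trans_le ht1.1.2) (hbef t ht.1.le ht.2)
        rw [hd.deriv]
        have : 0 ≤ c1 * Real.sqrt (f t / (2 * C3)) ^ 3 / 2 := by positivity
        linarith
    have h1 := hmono ⟨le_rfl, ht1p.le⟩ ⟨ht1p.le, le_rfl⟩ ht1p.le
    have h2 : f t1 ≤ R1 := ht1.2
    linarith
  -- the function `1 / sqrt`
  have hsp : ∀ t ∈ Icc 0 T, s1 ≤ Real.sqrt (f t / (2 * C3)) := by
    intro t ht
    apply Real.le_sqrt_of_sq_le
    rw [le_div_iff₀ (by positivity)]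
    have := hab t ht
    rw [hR1] at this
    linarith
  have hanti : AntitoneOn (fun t => (Real.sqrt (f t / (2 * C3)))⁻¹ + c1 / (8 * C3) * t)
      (Icc 0 T) := by
    have hder : ∀ t, 0 < t → t < T → ∃ d', HasDerivAt
        (fun t => (Real.sqrt (f t / (2 * C3)))⁻¹ + c1 / (8 * C3) * t) d' t ∧ d' ≤ 0 := by
      intro t ht0 htT
      obtain ⟨d, hd, hd'⟩ := key t ht0 htT (hab t ⟨ht0.le, htT.le⟩)
      have h1 := hsp t ⟨ht0.le, htT.le⟩
      have hfp : 0 < f t := lt_trans hR1p (hab t ⟨ht0.le, htT.le⟩)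
      have hne : f t / (2 * C3) ≠ 0 := by positivity
      have h2 := (hd.div_const (2 * C3)).sqrt hne
      set s : ℝ := Real.sqrt (f t / (2 * C3)) with hs
      have hs0 : 0 < s := by linarith
      have h3 := h2.inv hs0.ne'
      have h4 : HasDerivAt (fun t => c1 / (8 * C3) * t) (c1 / (8 * C3)) t := by
        simpa using (hasDerivAt_id t).const_mul (c1 / (8 * C3))
      refine ⟨_, h3.add h4, ?_⟩
      rw [← hs]
      have h5 : -(d / (2 * C3) / (2 * s)) / s ^ 2 + c1 / (8 * C3) =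
          -(d - c1 * s ^ 3 / 2) / (4 * C3 * s ^ 3) := by
        field_simp
        ring
      rw [h5]
      apply div_nonpos_of_nonpos_of_nonneg
      · linarith
      · positivity
    refine antitoneOn_of_deriv_nonpos (convex_Icc 0 T) ?_ ?_ ?_
    · refine ContinuousOn.add (ContinuousOn.inv₀ ?_ ?_) (by fun_prop)
      · exact (hf.div_const _).sqrt
      · intro t ht
        have := hsp t ht
        have h2 : 0 < Real.sqrt (f t / (2 * C3)) := by linarith
        exact h2.ne'
    · rw [interior_Icc]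
      intro t ht
      obtain ⟨d', hd, _⟩ := hder t ht.1 ht.2
      exact hd.differentiableAt.differentiableWithinAt
    · rw [interior_Icc]
      intro t ht
      obtain ⟨d', hd, hd'⟩ := hder t ht.1 ht.2
      rw [hd.deriv]
      exact hd'
  have h1 := hanti ⟨le_rfl, hT.le⟩ ⟨hT.le, le_rfl⟩ hT.le
  simp only [mul_zero, add_zero] at h1
  have h2 := hsp 0 ⟨le_rfl, hT.le⟩
  have h3 := hsp T ⟨hT.le, le_rfl⟩
  have h4 : (Real.sqrt (f 0 / (2 * C3)))⁻¹ ≤ s1⁻¹ := inv_anti₀ (by linarith) h2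
  have h5 : 0 < (Real.sqrt (f T / (2 * C3)))⁻¹ := inv_pos.2 (by linarith)
  have h6 : s1⁻¹ < c1 / (8 * C3) * T := by
    have h7 := inv_strictAnti₀ p2 hs1c
    have h8 : (8 * C3 / (c1 * T))⁻¹ = c1 / (8 * C3) * T := by
      rw [inv_div]
      ring
    linarith
  linarith

end Pool.Agent.W349.DyB.O
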