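import Pool.Agent.W268.Dy.StmB
import Pool.Agent.W578.Dy.Dif

/-!
# Part DB-X: lower bound for the cross terms on the tree
(helper349)
-/

set_option autoImplicit false

namespace Pool.Agent.W349.DyB.X

open Finset Pool.Agent.W268.Dy Pool.Agent.W578.Dy.Dif

variable {K : ℕ}

lemma gsum_succ' (n : ℕ) (f : Node K → ℝ) :
    gsum (n + 1) f = gsum n (fun w => ∑ c : Fin K, f (c :: w)) := by
  rw [gsum_sum]
  rfl

lemma cube (f : Fin K → ℝ) (hf : ∀ c, 0 ≤ f c) :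
    (∑ c, f c) ^ 3 ≤ (K : ℝ) ^ 2 * ∑ c, f c ^ 3 := by
  have h := _root_.pow_sum_div_card_le_sum_pow (s := (Finset.univ : Finset (Fin K))) (f := f)
    (fun a _ => hf a) 2
  rw [Finset.card_univ, Fintype.card_fin] at h
  rcases Nat.eq_zero_or_pos K with h0 | h0
  · subst h0
    simp
  · have hK : (0 : ℝ) < (K : ℝ) ^ 2 := by positivity
    rw [div_le_iff₀ hK] at h
    norm_num at h ⊢
    linarith

lemma amb {b x s : ℝ} (hb : 0 < b) (hs : 0 ≤ s) :
    x * s ^ 2 ≤ b / 2 * (x ^ 2 * s) + 1 / (2 * b) * s ^ 3 := by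
  have h1 : 0 ≤ s / (2 * b) * (b * x - s) ^ 2 := by positivity
  have h2 : b / 2 * (x ^ 2 * s) + 1 / (2 * b) * s ^ 3 - x * s ^ 2 =
      s / (2 * b) * (b * x - s) ^ 2 := by
    field_simp
    ring
  linarith

lemma node_b {b : ℝ} (hb : 0 < b) (x : Node K → ℝ) (hx : ∀ w, 0 ≤ x w) (w : Node K) :
    x w * ch x w ^ 2 ≤ b / 2 * (x w ^ 2 * ch x w) +
      (K : ℝ) ^ 2 / (2 * b) * ∑ c : Fin K, x (c :: w) ^ 3 := by
  have hs : 0 ≤ ch x w := Finset.sum_nonneg fun c _ => hx _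
  have h1 := amb (x := x w) hb hs
  have h2 := cube (fun c => x (c :: w)) fun c => hx _
  have h3 : ch x w ^ 3 ≤ (K : ℝ) ^ 2 * ∑ c : Fin K, x (c :: w) ^ 3 := h2
  have h4 : 1 / (2 * b) * ch x w ^ 3 ≤ 1 / (2 * b) * ((K : ℝ) ^ 2 * ∑ c : Fin K, x (c :: w) ^ 3) :=
    mul_le_mul_of_nonneg_left h3 (by positivity)
  have h5 : 1 / (2 * b) * ((K : ℝ) ^ 2 * ∑ c : Fin K, x (c :: w) ^ 3) =
      (K : ℝ) ^ 2 / (2 * b) * ∑ c : Fin K, x (c :: w) ^ 3 := by ring
  linarith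

lemma node {ν μ q b b' b'' : ℝ} (hν : 0 ≤ ν) (hμ : 0 < μ) (hq : 0 < q) (hb : 0 < b)
    (hb' : 0 < b') (hb'' : 0 < b'') (x : Node K → ℝ) (hx : ∀ w, 0 ≤ x w) (n : ℕ) (w : Node K)
    (hw : w.length = n) :
    K * q ^ (n + 1) * x w ^ 3 - ν * (1 + μ) * μ ^ n * (K / 2 * x w ^ 2 +
        1 / 2 * ∑ c : Fin K, x (c :: w) ^ 2)
      - q ^ (n + 1) * (b / 2 * (x w ^ 2 * ch x w) +
        K ^ 2 / (2 * b) * ∑ c : Fin K, x (c :: w) ^ 3)
      - q ^ (n + 2) * (b' / 2 * (x w ^ 2 * ch x w) + 1 / (2 * b') * (b'' / 2 *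
        ∑ c : Fin K, x (c :: w) ^ 2 * ch x (c :: w) +
        K ^ 2 / (2 * b'') * ∑ c : Fin K, ∑ d : Fin K, x (d :: c :: w) ^ 3)) ≤
    rhs ν μ q x w * ch x w + x w * ∑ c : Fin K, rhs ν μ q x (c :: w) := by
  have hxw := hx w
  have hs : 0 ≤ ch x w := Finset.sum_nonneg fun c _ => hx _
  have hg : 0 ≤ gain q x w := by
    cases w with
    | nil => exact le_rfl
    | cons c u => exact mul_nonneg (by positivity) (sq_nonneg _)
  -- the first term
  have h1 : rhs ν μ q x w * ch x w = -(ν * μ ^ n * (x w * ch x w)) + gain q x w * ch x w -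
      q ^ (n + 1) * (x w * ch x w ^ 2) := by
    unfold rhs
    rw [hw]
    change (-(ν * μ ^ n * x w) + gain q x w - q ^ (n + 1) * x w * ch x w) * ch x w = _
    ring
  -- the second term
  have h2 : x w * ∑ c : Fin K, rhs ν μ q x (c :: w) = -(ν * μ ^ n * μ * (x w * ch x w)) +
      K * q ^ (n + 1) * x w ^ 3 - q ^ (n + 2) * ∑ c : Fin K, x w * x (c :: w) * ch x (c :: w) := by
    have e1 : ∀ c : Fin K, rhs ν μ q x (c :: w) = (-(ν * μ ^ (n + 1)) * x (c :: w)) +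
        (q ^ (n + 1) * x w ^ 2 + (-(q ^ (n + 2)) * (x (c :: w) * ch x (c :: w)))) := by
      intro c
      unfold rhs
      have e2 : (c :: w).length = n + 1 := by rw [List.length_cons, hw]
      have e3 : gain q x (c :: w) = q ^ (n + 1) * x w ^ 2 := by
        change q ^ (w.length + 1) * x w ^ 2 = _
        rw [hw]
      rw [e2, e3]
      change -(ν * μ ^ (n + 1) * x (c :: w)) + q ^ (n + 1) * x w ^ 2 -
        q ^ (n + 1 + 1) * x (c :: w) * ch x (c :: w) = _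
      ring
    rw [Finset.sum_congr rfl fun c _ => e1 c, Finset.sum_add_distrib, Finset.sum_add_distrib,
      ← Finset.mul_sum, ← Finset.mul_sum (a := -(q ^ (n + 2))), Finset.sum_const,
      Finset.card_univ, Fintype.card_fin]
    have e4 : ∑ c : Fin K, x w * x (c :: w) * ch x (c :: w) =
        x w * ∑ c : Fin K, x (c :: w) * ch x (c :: w) := by
      rw [Finset.mul_sum]
      exact Finset.sum_congr rfl fun c _ => by ring
    have e5 : ∑ c : Fin K, x (c :: w) = ch x w := rfl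
    rw [e4, e5, nsmul_eq_mul]
    ring
  -- (a)
  have ha : x w * ch x w ≤ K / 2 * x w ^ 2 + 1 / 2 * ∑ c : Fin K, x (c :: w) ^ 2 := by
    have e1 : x w * ch x w = ∑ c : Fin K, x w * x (c :: w) := by
      unfold ch
      rw [Finset.mul_sum]
    have e2 : (K : ℝ) / 2 * x w ^ 2 + 1 / 2 * ∑ c : Fin K, x (c :: w) ^ 2 =
        ∑ c : Fin K, (1 / 2 * x w ^ 2 + 1 / 2 * x (c :: w) ^ 2) := by
      rw [Finset.sum_add_distrib, Finset.sum_const, Finset.card_univ, Fintype.card_fin,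
        nsmul_eq_mul, ← Finset.mul_sum]
      ring
    rw [e1, e2]
    refine Finset.sum_le_sum fun c _ => ?_
    nlinarith [sq_nonneg (x w - x (c :: w))]
  -- (b)
  have hb1 := node_b hb x hx w
  -- (c)
  have hc : ∑ c : Fin K, x w * x (c :: w) * ch x (c :: w) ≤ b' / 2 * (x w ^ 2 * ch x w) +
      1 / (2 * b') * (b'' / 2 * ∑ c : Fin K, x (c :: w) ^ 2 * ch x (c :: w) +
        K ^ 2 / (2 * b'') * ∑ c : Fin K, ∑ d : Fin K, x (d :: c :: w) ^ 3) := by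
    have e1 : ∀ c : Fin K, x w * x (c :: w) * ch x (c :: w) ≤
        b' / 2 * x w ^ 2 * x (c :: w) + 1 / (2 * b') * (b'' / 2 * (x (c :: w) ^ 2 *
          ch x (c :: w)) + K ^ 2 / (2 * b'') * ∑ d : Fin K, x (d :: c :: w) ^ 3) := by
      intro c
      have hxc := hx (c :: w)
      have e2 := node_b hb'' x hx (c :: w)
      have e3 : 1 / (2 * b') * (x (c :: w) * ch x (c :: w) ^ 2) ≤ 1 / (2 * b') * (b'' / 2 *
          (x (c :: w) ^ 2 * ch x (c :: w)) + K ^ 2 / (2 * b'') *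
          ∑ d : Fin K, x (d :: c :: w) ^ 3) := mul_le_mul_of_nonneg_left e2 (by positivity)
      have e4 : 0 ≤ x (c :: w) / (2 * b') * (b' * x w - ch x (c :: w)) ^ 2 := by positivity
      have e5 : b' / 2 * x w ^ 2 * x (c :: w) + 1 / (2 * b') * (x (c :: w) * ch x (c :: w) ^ 2) -
          x w * x (c :: w) * ch x (c :: w) =
          x (c :: w) / (2 * b') * (b' * x w - ch x (c :: w)) ^ 2 := by
        field_simp
        ring
      linarith
    refine (Finset.sum_le_sum fun c _ => e1 c).trans (le_of_eq ?_)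
    rw [Finset.sum_add_distrib, ← Finset.mul_sum, ← Finset.mul_sum, Finset.sum_add_distrib,
      ← Finset.mul_sum, ← Finset.mul_sum]
    have e5 : ∑ c : Fin K, x (c :: w) = ch x w := rfl
    rw [e5]
    ring
  rw [h1, h2]
  have hA : ν * (1 + μ) * μ ^ n * (x w * ch x w) ≤ ν * (1 + μ) * μ ^ n * (K / 2 * x w ^ 2 +
      1 / 2 * ∑ c : Fin K, x (c :: w) ^ 2) := mul_le_mul_of_nonneg_left ha (by positivity)
  have hB := mul_le_mul_of_nonneg_left hb1 (by positivity : (0 : ℝ) ≤ q ^ (n + 1))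
  have hC := mul_le_mul_of_nonneg_left hc (by positivity : (0 : ℝ) ≤ q ^ (n + 2))
  have hG : 0 ≤ gain q x w * ch x w := mul_nonneg hg hs
  have hA' : ν * (1 + μ) * μ ^ n * (x w * ch x w) = ν * μ ^ n * (x w * ch x w) +
      ν * μ ^ n * μ * (x w * ch x w) := by ring
  linarith

theorem main : S_bX := by
  intro K ν μ q b b' b'' n x hν hμ hq hb hb' hb'' hx
  have h1 : gsum n (fun w => K * q ^ (n + 1) * x w ^ 3 - ν * (1 + μ) * μ ^ n * (K / 2 * x w ^ 2 +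
        1 / 2 * ∑ c : Fin K, x (c :: w) ^ 2)
      - q ^ (n + 1) * (b / 2 * (x w ^ 2 * ch x w) +
        K ^ 2 / (2 * b) * ∑ c : Fin K, x (c :: w) ^ 3)
      - q ^ (n + 2) * (b' / 2 * (x w ^ 2 * ch x w) + 1 / (2 * b') * (b'' / 2 *
        ∑ c : Fin K, x (c :: w) ^ 2 * ch x (c :: w) +
        K ^ 2 / (2 * b'') * ∑ c : Fin K, ∑ d : Fin K, x (d :: c :: w) ^ 3))) ≤
      dX ν μ q n x := gsum_le fun w hw => node hν hμ hq hb hb' hb'' x hx n w hw
  refine le_trans (le_of_eq ?_) h1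
  have h2 : (fun w => K * q ^ (n + 1) * x w ^ 3 - ν * (1 + μ) * μ ^ n * (K / 2 * x w ^ 2 +
        1 / 2 * ∑ c : Fin K, x (c :: w) ^ 2)
      - q ^ (n + 1) * (b / 2 * (x w ^ 2 * ch x w) +
        K ^ 2 / (2 * b) * ∑ c : Fin K, x (c :: w) ^ 3)
      - q ^ (n + 2) * (b' / 2 * (x w ^ 2 * ch x w) + 1 / (2 * b') * (b'' / 2 *
        ∑ c : Fin K, x (c :: w) ^ 2 * ch x (c :: w) +
        K ^ 2 / (2 * b'') * ∑ c : Fin K, ∑ d : Fin K, x (d :: c :: w) ^ 3))) =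
      fun w : Node K => K * q ^ (n + 1) * x w ^ 3 + ((-(ν * (1 + μ) * μ ^ n * (K / 2))) * x w ^ 2 +
        ((-(ν * (1 + μ) * μ ^ n * (1 / 2))) * (∑ c : Fin K, x (c :: w) ^ 2) +
        ((-(q ^ (n + 1) * (b / 2) + q ^ (n + 2) * (b' / 2))) * (x w ^ 2 * ch x w) +
        ((-(q ^ (n + 1) * (K ^ 2 / (2 * b)))) * (∑ c : Fin K, x (c :: w) ^ 3) +
        ((-(q ^ (n + 2) * (1 / (2 * b') * (b'' / 2)))) *
          (∑ c : Fin K, x (c :: w) ^ 2 * ch x (c :: w)) +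
        (-(q ^ (n + 2) * (1 / (2 * b') * (K ^ 2 / (2 * b''))))) *
          (∑ c : Fin K, ∑ d : Fin K, x (d :: c :: w) ^ 3)))))) := by
    funext w
    ring
  rw [h2]
  simp only [gsum_add, gsum_mul]
  have e1 : gsum n (fun w : Node K => ∑ c : Fin K, x (c :: w) ^ 2) = g2 (n + 1) x :=
    (gsum_succ' n fun w => x w ^ 2).symm
  have e2 : gsum n (fun w : Node K => ∑ c : Fin K, x (c :: w) ^ 3) = g3 (n + 1) x :=
    (gsum_succ' n fun w => x w ^ 3).symm
  have e3 : gsum n (fun w : Node K => ∑ c : Fin K, x (c :: w) ^ 2 * ch x (c :: w)) =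
      gT (n + 1) x := (gsum_succ' n fun w => x w ^ 2 * ch x w).symm
  have e4 : gsum n (fun w : Node K => ∑ c : Fin K, ∑ d : Fin K, x (d :: c :: w) ^ 3) =
      g3 (n + 2) x := by
    have h3 := gsum_succ' (n + 1) fun w : Node K => x w ^ 3
    have h4 := gsum_succ' n fun w : Node K => ∑ d : Fin K, x (d :: w) ^ 3
    exact (h3.trans h4).symm
  rw [e1, e2, e3, e4]
  change _ = K * q ^ (n + 1) * g3 n x + ((-(ν * (1 + μ) * μ ^ n * (K / 2))) * g2 n x +
    ((-(ν * (1 + μ) * μ ^ n * (1 / 2))) * g2 (n + 1) x +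
    ((-(q ^ (n + 1) * (b / 2) + q ^ (n + 2) * (b' / 2))) * gT n x +
    ((-(q ^ (n + 1) * (K ^ 2 / (2 * b)))) * g3 (n + 1) x +
    ((-(q ^ (n + 2) * (1 / (2 * b') * (b'' / 2)))) * gT (n + 1) x +
    (-(q ^ (n + 2) * (1 / (2 * b') * (K ^ 2 / (2 * b''))))) * g3 (n + 2) x)))))
  ring

end Pool.Agent.W349.DyB.X
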